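import Pool.Agent.Helper72.RA.Defs2

set_option autoImplicit false

/-! # LAY: assembly of the layout -/

namespace Pool.Agent.Helper72.RA

open Real Finset MeasureTheory Filter

open scoped Classical

theorem st_LAY (h1 : ST_VCARD) (h2 : ST_VDENS) (h3 : ST_VSEP1) (h4 : ST_VSEP2) (h5 : ST_VWIN)
    (h6 : ST_VRNG) : ST_LAY := by
  filter_upwards [h1, h2, h3, h4, h5, h6] with q h1 h2 h3 h4 h5 h6 m hm hm'
  obtain ⟨c1, c2, c3, c4, c5, c6, c7, -⟩ := h1 m hm hm'
  have d1 := h2 m hm hm'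
  have s1 := h3 m hm hm'
  have s2 := h4 m hm hm'
  obtain ⟨w1, w2, w3⟩ := h5 m hm hm'
  obtain ⟨r1, r2, r3, r4, r5⟩ := h6 m hm hm'
  exact ⟨{
    K := Vx q m
    fK := inferInstance
    card_K := c1
    ty := vty
    lev := vlev
    pos := vpos
    rad := vrad
    win := vwin
    cno := vcls
    sv := .s
    hv := .h0
    ty_s := by intro k; cases k <;> simp [vty]
    ty_h0 := by intro k; cases k <;> simp [vty]
    card_xp := c2
    card_x0 := c3
    card_h := c4
    lev_g := fun k hk => (r3 k hk).2.2.2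
    card_g1 := c5
    card_g2 := c6
    lev_v := fun k hk => (r4 k hk).2.2.2
    card_v := c7
    xr := r1
    hr := r2
    gr := fun k hk => ⟨(r3 k hk).1, (r3 k hk).2.1, (r3 k hk).2.2.1⟩
    vr := fun k hk => ⟨(r4 k hk).1, (r4 k hk).2.1, (r4 k hk).2.2.1⟩
    hub := r5
    dens := d1
    win1 := fun k _ => w2 k
    win2 := w3
    cno_lt := w1
    sep1 := s1
    sep2 := s2 }⟩

end Pool.Agent.Helper72.RA
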