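import Pool.Agent.Helper72.RA.Defs2

set_option autoImplicit false

/-! # VCARD: cardinalities in the concrete layout -/

namespace Pool.Agent.Helper72.RA

open Real Finset MeasureTheory Filter

open scoped Classical

lemma vcard_card (q m : ℕ) : Fintype.card (Vx q m) =
    2 + 2 * nX q + nF q * nF q * (LH q + 1) + (∑ u : Fin (UU q + 1), Ng q m u) +
      ∑ a : Fin 3, Mv q m a := by
  rw [Fintype.card_congr (vyEquiv (nX q) (nF q) (LH q) (UU q) (Ng q m) (Mv q m))]
  simp only [Fintype.card_sum, Fintype.card_unique, Fintype.card_fin, Fintype.card_prod,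
    Fintype.card_sigma]
  ring

lemma vcard_xp (q m : ℕ) : (univ.filter fun k : Vx q m => vty k = Ty.xp).card = nX q := by
  have h : (univ.filter fun k : Vx q m => vty k = Ty.xp) =
      univ.image (Vy.xp : Fin (nX q) → Vx q m) := by
    ext k
    cases k <;> simp [vty]
  rw [h, card_image_of_injective _ (fun i j hij => by simpa using hij), card_univ,
    Fintype.card_fin]

lemma vcard_x0 (q m : ℕ) : (univ.filter fun k : Vx q m => vty k = Ty.x0).card = nX q := by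
  have h : (univ.filter fun k : Vx q m => vty k = Ty.x0) =
      univ.image (Vy.x0 : Fin (nX q) → Vx q m) := by
    ext k
    cases k <;> simp [vty]
  rw [h, card_image_of_injective _ (fun i j hij => by simpa using hij), card_univ,
    Fintype.card_fin]

lemma vcard_h (q m : ℕ) : (univ.filter fun k : Vx q m => vty k = Ty.h).card =
    nF q * (nF q * (LH q + 1)) := by
  have h : (univ.filter fun k : Vx q m => vty k = Ty.h) =
      univ.image (fun x : Fin (nF q) × Fin (nF q) × Fin (LH q + 1) =>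
        (Vy.h x.1 x.2.1 x.2.2 : Vx q m)) := by
    ext k
    cases k <;> simp [vty]
  rw [h, card_image_of_injective _ ?_, card_univ]
  · simp
  · rintro ⟨a, b, c⟩ ⟨a', b', c'⟩ hij
    simpa using hij

lemma vcard_g (q m u : ℕ) (hu : u ≤ UU q) :
    (univ.filter fun k : Vx q m => vty k = Ty.g ∧ vlev k = u).card = Ng q m u := by
  have h : (univ.filter fun k : Vx q m => vty k = Ty.g ∧ vlev k = u) =
      univ.image (fun i : Fin (Ng q m u) =>
        (Vy.g (⟨u, Nat.lt_succ_of_le hu⟩ : Fin (UU q + 1)) i : Vx q m)) := by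
    ext k
    cases k with
    | g u' i =>
      simp only [mem_filter, mem_univ, vty, vlev, true_and, mem_image]
      constructor
      · rintro rfl
        exact ⟨i, rfl⟩
      · rintro ⟨j, hj⟩
        have := congrArg vlev hj
        simpa [vlev] using this.symm
    | _ => simp [vty]
  rw [h, card_image_of_injective _ ?_, card_univ, Fintype.card_fin]
  intro i j hij
  simpa using hij

lemma vcard_v (q m a : ℕ) (ha : a < 3) :
    (univ.filter fun k : Vx q m => vty k = Ty.v ∧ vlev k = a).card = Mv q m a := by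
  have h : (univ.filter fun k : Vx q m => vty k = Ty.v ∧ vlev k = a) =
      univ.image (fun i : Fin (Mv q m a) => (Vy.v (⟨a, ha⟩ : Fin 3) i : Vx q m)) := by
    ext k
    cases k with
    | v a' i =>
      simp only [mem_filter, mem_univ, vty, vlev, true_and, mem_image]
      constructor
      · rintro rfl
        exact ⟨i, rfl⟩
      · rintro ⟨j, hj⟩
        have := congrArg vlev hj
        simpa [vlev] using this.symm
    | _ => simp [vty]
  rw [h, card_image_of_injective _ ?_, card_univ, Fintype.card_fin]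
  intro i j hij
  simpa using hij

lemma vcard_Ng_lower (q m u : ℕ) (hP : 0 < Pl q u) :
    (q : ℝ) * m / Pl q u ≤ (Ng q m u : ℝ) := by
  have hP' : (0:ℝ) < Pl q u := by exact_mod_cast hP
  rw [div_le_iff₀ hP']
  have h1 := Nat.lt_mul_div_succ (q * m) hP
  have h2 : q * m ≤ Ng q m u * Pl q u := by
    unfold Ng
    calc q * m ≤ Pl q u * (q * m / Pl q u + 1) := h1.le
      _ = _ := mul_comm _ _
  exact_mod_cast h2

lemma vcard_Ng_upper (q m u : ℕ) :
    (Ng q m u : ℝ) ≤ (q : ℝ) * m / Pl q u + 1 := by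
  unfold Ng
  push_cast
  have := @Nat.cast_div_le ℝ _ _ _ (q * m) (Pl q u)
  push_cast at this
  linarith

/-- bound for `Wn` -/
lemma vcard_Wn {q m : ℕ} (hq : 10 ^ 9 ≤ q) (hU : UU q + 8 ≤ q) (hn : nF q ≤ q)
    (hsum : ∑ u ∈ range (UU q + 1), ((Pl q u : ℝ))⁻¹ ≤ 2 / 3 * qi q 9)
    (hm : q ^ 1000 ≤ m) : (Wn q m : ℝ) ≤ m / 1000 := by
  have hQ : (10:ℝ) ^ 9 ≤ q := by exact_mod_cast hq
  have hQ0 : (0:ℝ) < q := by linarith [show (0:ℝ) < 10 ^ 9 by norm_num]
  have hQ1 : (1:ℝ) ≤ q := by linarith [show (1:ℝ) ≤ 10 ^ 9 by norm_num]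
  have hM : (q:ℝ) ^ 1000 ≤ m := by exact_mod_cast hm
  have hM0 : (0:ℝ) < m := lt_of_lt_of_le (pow_pos hQ0 _) hM
  have h999 : (q:ℝ) ^ 999 * 10 ^ 9 ≤ m := by
    calc (q:ℝ) ^ 999 * 10 ^ 9 ≤ (q:ℝ) ^ 999 * q := by gcongr
      _ = (q:ℝ) ^ 1000 := by rw [← pow_succ]
      _ ≤ m := hM
  have e1 : (nX q : ℝ) ≤ (q:ℝ) ^ 999 := by
    unfold nX; push_cast
    exact pow_le_pow_right₀ hQ1 (by norm_num)
  have e2 : ((nF q * nF q * (LH q + 1) : ℕ) : ℝ) ≤ 2 * (q:ℝ) ^ 999 := by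
    have h1 : (nF q : ℝ) ≤ q := by exact_mod_cast hn
    have h2 : (LH q : ℝ) = (q:ℝ) ^ 822 := by unfold LH; push_cast; rfl
    push_cast
    rw [h2]
    have h3 : (1:ℝ) ≤ (q:ℝ) ^ 822 := one_le_pow₀ hQ1
    calc (nF q : ℝ) * nF q * ((q:ℝ) ^ 822 + 1) ≤ q * q * ((q:ℝ) ^ 822 + (q:ℝ) ^ 822) := by gcongr
      _ = 2 * (q:ℝ) ^ 824 := by ring
      _ ≤ 2 * (q:ℝ) ^ 999 := by
        have := pow_le_pow_right₀ hQ1 (show 824 ≤ 999 by norm_num)
        linarith
  have e3 : ((∑ u : Fin (UU q + 1), Ng q m u : ℕ) : ℝ) ≤ m / 10 ^ 9 + q := by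
    push_cast
    rw [← Finset.sum_range (fun u => (Ng q m u : ℝ))]
    calc ∑ u ∈ range (UU q + 1), (Ng q m u : ℝ)
        ≤ ∑ u ∈ range (UU q + 1), ((q : ℝ) * m * (Pl q u : ℝ)⁻¹ + 1) := by
          refine sum_le_sum (fun u _ => ?_)
          have := vcard_Ng_upper q m u
          rwa [div_eq_mul_inv] at this
      _ = (q : ℝ) * m * ∑ u ∈ range (UU q + 1), (Pl q u : ℝ)⁻¹ + (UU q + 1) := by
          rw [sum_add_distrib, ← mul_sum]; simp
      _ ≤ (q : ℝ) * m * (2 / 3 * qi q 9) + q := by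
          have : (UU q : ℝ) + 1 ≤ q := by
            have : UU q + 1 ≤ q := by omega
            exact_mod_cast this
          gcongr
      _ ≤ m / 10 ^ 9 + q := by
          have h1 : (q : ℝ) * qi q 9 ≤ 1 / 10 ^ 9 := by
            unfold qi
            rw [pow_succ, mul_inv, mul_comm, mul_assoc, inv_mul_cancel₀ hQ0.ne', mul_one,
              one_div]
            gcongr
            calc (10:ℝ) ^ 9 ≤ q := hQ
              _ = (q:ℝ) ^ 1 := (pow_one _).symm
              _ ≤ (q:ℝ) ^ 8 := pow_le_pow_right₀ hQ1 (by norm_num)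
          have h2 : (q : ℝ) * m * (2 / 3 * qi q 9) = m * (2 / 3) * (q * qi q 9) := by ring
          rw [h2]
          have h3 : (m:ℝ) * (2 / 3) * (q * qi q 9) ≤ m * (2 / 3) * (1 / 10 ^ 9) := by gcongr
          have h4 : (m:ℝ) * (2 / 3) * (1 / 10 ^ 9) ≤ m / 10 ^ 9 := by
            rw [mul_one_div]
            gcongr
            linarith
          linarith
  have e4 : (q:ℝ) ≤ (q:ℝ) ^ 999 := by
    calc (q:ℝ) = (q:ℝ) ^ 1 := (pow_one _).symm
      _ ≤ _ := pow_le_pow_right₀ hQ1 (by norm_num)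
  have e5 : (1:ℝ) ≤ (q:ℝ) ^ 999 := one_le_pow₀ hQ1
  have e6 : (Wn q m : ℝ) = 2 + 2 * (nX q : ℝ) + ((nF q * nF q * (LH q + 1) : ℕ) : ℝ) +
      ((∑ u : Fin (UU q + 1), Ng q m u : ℕ) : ℝ) := by
    unfold Wn
    push_cast
    ring
  rw [e6]
  have e7 : (q:ℝ) ^ 999 ≤ m / 10 ^ 9 := by
    rw [le_div_iff₀ (by norm_num)]
    exact h999
  have e8 : (m:ℝ) / 10 ^ 9 = m * (1 / 10 ^ 9) := by ring
  have e9 : (2:ℝ) + 2 * (nX q : ℝ) + ((nF q * nF q * (LH q + 1) : ℕ) : ℝ) +
      ((∑ u : Fin (UU q + 1), Ng q m u : ℕ) : ℝ) ≤ 8 * (m / 10 ^ 9) := by linarith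
  refine e9.trans ?_
  rw [e8]
  have : (m:ℝ) / 1000 = m * (1 / 1000) := by ring
  rw [this]
  nlinarith

theorem st_VCARD (hLEV : ST_LEV) : ST_VCARD := by
  filter_upwards [hLEV] with q hq m hm hm'
  obtain ⟨hq9, -, -, -, hU, hn, hmono, hPl, -, -, -, -, hsum, -⟩ := hq
  have hQ : (10:ℝ) ^ 9 ≤ q := by exact_mod_cast hq9
  have hQ0 : (0:ℝ) < q := by linarith [show (0:ℝ) < 10 ^ 9 by norm_num]
  have hQ1 : (1:ℝ) ≤ q := by linarith [show (1:ℝ) ≤ 10 ^ 9 by norm_num]
  have hPpos : ∀ u, 0 < Pl q u := by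
    intro u
    have h1 : (0:ℝ) < Pl q u := lt_of_lt_of_le (by positivity) (hPl u)
    exact_mod_cast h1
  have hW := vcard_Wn hq9 hU hn hsum hm
  have hMbig : (10:ℝ) ^ 9 ≤ m := by
    calc (10:ℝ) ^ 9 ≤ q := hQ
      _ = (q:ℝ) ^ 1 := (pow_one _).symm
      _ ≤ (q:ℝ) ^ 1000 := pow_le_pow_right₀ hQ1 (by norm_num)
      _ ≤ m := by exact_mod_cast hm
  have hWm : Wn q m + 2 ≤ m := by
    have : (Wn q m : ℝ) + 2 ≤ m := by
      have h10 : (10:ℝ) ^ 9 = 1000000000 := by norm_num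
      linarith
    exact_mod_cast this
  have hMsum : ∑ a : Fin 3, Mv q m a = m - 2 - Wn q m := by
    rw [Fin.sum_univ_three]
    unfold Mv
    simp only [Fin.isValue, Fin.coe_ofNat_eq_mod]
    omega
  have hMv : ∀ a < 3, (33 / 100 : ℝ) * m ≤ (Mv q m a : ℝ) ∧ (Mv q m a : ℝ) ≤ 34 / 100 * m := by
    intro a ha
    have h1 : m ≤ 3 * Mv q m a + Wn q m + 4 := by unfold Mv; omega
    have h2 : 3 * Mv q m a ≤ m + 2 := by unfold Mv; omega
    have h1' : (m:ℝ) ≤ 3 * Mv q m a + Wn q m + 4 := by exact_mod_cast h1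
    have h2' : 3 * (Mv q m a : ℝ) ≤ m + 2 := by exact_mod_cast h2
    have h10 : (10:ℝ) ^ 9 = 1000000000 := by norm_num
    constructor <;> linarith
  refine ⟨?_, vcard_xp q m, vcard_x0 q m, ?_, ?_, ?_, ?_, hMv⟩
  · rw [vcard_card, hMsum]
    have : Wn q m = 2 + 2 * nX q + nF q * nF q * (LH q + 1) + ∑ u : Fin (UU q + 1), Ng q m u :=
      rfl
    omega
  · rw [vcard_h]
    have h1 : LH q + 1 ≤ q ^ 823 := by
      unfold LH
      have h2 : 1 ≤ q ^ 822 := Nat.one_le_pow _ _ (by omega)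
      have h3 : ∀ x : ℕ, 1 ≤ x → x + 1 ≤ x * 2 := fun x hx => by omega
      calc q ^ 822 + 1 ≤ q ^ 822 * 2 := h3 _ h2
        _ ≤ q ^ 822 * q := Nat.mul_le_mul_left _ (by omega)
        _ = q ^ 823 := (pow_succ q 822).symm
    calc nF q * (nF q * (LH q + 1)) ≤ q * (q * q ^ 823) := by gcongr
      _ = q ^ 825 := by ring
      _ ≤ q ^ 826 := Nat.pow_le_pow_right (by omega) (by norm_num)
  · intro u hu
    rw [vcard_g q m u hu]
    exact vcard_Ng_lower q m u (hPpos u)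
  · intro u hu
    rw [vcard_g q m u hu]
    exact vcard_Ng_upper q m u
  · intro a ha
    rw [vcard_v q m a ha]
    have h2 : 3 * Mv q m a ≤ m + 2 := by unfold Mv; omega
    have h2' : 3 * (Mv q m a : ℝ) ≤ m + 2 := by exact_mod_cast h2
    linarith

end Pool.Agent.Helper72.RA
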