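import Pool.Agent.Helper72.RA.Defs2

set_option autoImplicit false

/-! # VDENS: density of the first cluster -/

namespace Pool.Agent.Helper72.RA

open Real Finset MeasureTheory Filter

open scoped Classical

theorem st_VDENS (hV : ST_VCARD) : ST_VDENS := by
  filter_upwards [hV, eventually_ge_atTop (10 ^ 9)] with q hq hq9 m hm hm' S w hS1 hS2 hw1 hw2
  obtain ⟨-, -, -, -, -, -, -, hM⟩ := hq m hm hm'
  obtain ⟨hM1, hM2⟩ := hM 0 (by norm_num)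
  set M := Mv q m 0 with hMdef
  have hQ : (10:ℝ) ^ 9 ≤ q := by exact_mod_cast hq9
  have h10 : (10:ℝ) ^ 9 = 1000000000 := by norm_num
  have hQ1 : (1:ℝ) ≤ q := by linarith
  have hm1 : (1:ℝ) ≤ m := by
    have h1 : 1 ≤ m := le_trans (Nat.one_le_pow _ _ (by omega)) hm
    exact_mod_cast h1
  have hm0 : (0:ℝ) < m := by linarith
  have hwm : (10:ℝ) ^ 9 ≤ w * m := by
    rw [div_le_iff₀ hm0] at hw1
    linarith
  have hM0 : (0:ℝ) < M := by linarith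
  have hw0 : 0 < w := by
    by_contra hc
    push Not at hc
    nlinarith
  set xl : ℝ := (S - 1 - w) * M / 2 with hxl
  set xh : ℝ := (S - 1 + w) * M / 2 with hxh
  have hxl0 : 0 ≤ xl := by
    rw [hxl]
    have : 0 ≤ S - 1 - w := by linarith
    positivity
  have hxh0 : 0 ≤ xh := by
    rw [hxh]
    have : 0 ≤ S - 1 + w := by linarith
    positivity
  have hxM : xh < M := by
    rw [hxh]
    nlinarith
  set f : ℕ → Vx q m := fun i => if h : i < Mv q m ((0 : Fin 3) : ℕ) then .v 0 ⟨i, h⟩ else .s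
    with hf
  have hlt : ∀ i ∈ Icc ⌈xl⌉₊ ⌊xh⌋₊, i < Mv q m ((0 : Fin 3) : ℕ) := by
    intro i hi
    have h1 : (i : ℝ) ≤ xh := by
      have h2 := (mem_Icc.1 hi).2
      exact (Nat.le_floor_iff hxh0).1 h2
    have h3 : (i : ℝ) < M := lt_of_le_of_lt h1 hxM
    exact_mod_cast h3
  have hcard : (Icc ⌈xl⌉₊ ⌊xh⌋₊).card ≤
      (univ.filter fun k : Vx q m => vty k = Ty.v ∧ vlev k = 0 ∧ |vrad k - S| ≤ w).card := by
    refine card_le_card_of_injOn f ?_ ?_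
    · intro i hi
      have hi' := hlt i hi
      have h1 : xl ≤ i := Nat.ceil_le.1 (mem_Icc.1 hi).1
      have h2 : (i : ℝ) ≤ xh := (Nat.le_floor_iff hxh0).1 (mem_Icc.1 hi).2
      simp only [hf, dif_pos hi']
      rw [Finset.mem_coe, mem_filter]
      refine ⟨mem_univ _, rfl, rfl, ?_⟩
      have h3 : vrad (Vy.v 0 ⟨i, hi'⟩ : Vx q m) = 1 + 2 * (i : ℝ) / (M : ℝ) := rfl
      rw [h3, abs_le]
      have h4 : 2 * (i : ℝ) / (M : ℝ) ≤ S - 1 + w := by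
        rw [div_le_iff₀ hM0]; rw [hxh] at h2; linarith
      have h5 : S - 1 - w ≤ 2 * (i : ℝ) / (M : ℝ) := by
        rw [le_div_iff₀ hM0]; rw [hxl] at h1; linarith
      constructor <;> linarith
    · intro i hi j hj hij
      simp only [hf, dif_pos (hlt i hi), dif_pos (hlt j hj)] at hij
      simpa using hij
  have hc2 : w * M - 1 ≤ ((Icc ⌈xl⌉₊ ⌊xh⌋₊).card : ℝ) := by
    rw [Nat.card_Icc]
    have h1 : xh < (⌊xh⌋₊ : ℝ) + 1 := Nat.lt_floor_add_one xh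
    have h2 : (⌈xl⌉₊ : ℝ) < xl + 1 := Nat.ceil_lt_add_one hxl0
    have h3 : ((⌊xh⌋₊ + 1 : ℕ) : ℝ) - (⌈xl⌉₊ : ℝ) ≤ ((⌊xh⌋₊ + 1 - ⌈xl⌉₊ : ℕ) : ℝ) := by
      rw [sub_le_iff_le_add]
      have h4 : ⌊xh⌋₊ + 1 ≤ (⌊xh⌋₊ + 1 - ⌈xl⌉₊) + ⌈xl⌉₊ := by omega
      exact_mod_cast h4
    push_cast at h3 ⊢
    have h4 : xh - xl = w * M := by rw [hxl, hxh]; ring
    linarith
  have hc3 : ((Icc ⌈xl⌉₊ ⌊xh⌋₊).card : ℝ) ≤
      ((univ.filter fun k : Vx q m => vty k = Ty.v ∧ vlev k = 0 ∧ |vrad k - S| ≤ w).card : ℝ) := by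
    exact_mod_cast hcard
  have hc4 : w * m / 5 ≤ w * M - 1 := by nlinarith
  linarith

end Pool.Agent.Helper72.RA
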