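import Pool.Agent.Helper72.RA.Defs2

set_option autoImplicit false

/-! # VRNG: ranges of position and radius -/

namespace Pool.Agent.Helper72.RA

open Real Finset MeasureTheory Filter

open scoped Classical

lemma vrng_pos {q a : ℕ} (hq : 10 ^ 9 ≤ q) (h1 : ∀ u < u0 q, (Pl q u : ℝ) ≤ 3 * (q : ℝ) ^ 20)
    (ha : a < nF q) : 1 ≤ posC q a ∧ posC q a ≤ 1 + 3 * (q:ℝ) ^ 20 := by
  have hQ1 : (1:ℝ) ≤ q := by
    have : 1 ≤ q := by omega
    exact_mod_cast this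
  unfold posC
  split_ifs with h
  · have h2 : (a:ℝ) ≤ 3 := by
      have : a ≤ 3 := by omega
      exact_mod_cast this
    have h3 : (q:ℝ) ^ 10 ≤ (q:ℝ) ^ 20 := pow_le_pow_right₀ hQ1 (by norm_num)
    constructor
    · have : (0:ℝ) ≤ (a:ℝ) * (q:ℝ) ^ 10 := by positivity
      linarith
    · have : (a:ℝ) * (q:ℝ) ^ 10 ≤ 3 * (q:ℝ) ^ 20 := by gcongr
      linarith
  · have h4 : a - 3 < u0 q := by unfold nF at ha; omega
    have := h1 _ h4
    constructor
    · have : (0:ℝ) ≤ (Pl q (a - 3) : ℝ) := by positivity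
      linarith
    · linarith

theorem st_VRNG (hLEV : ST_LEV) : ST_VRNG := by
  filter_upwards [hLEV] with q hq m hm hm'
  obtain ⟨hq9, hlow, -, -, hU, hn, hmono, hPl, -, -, -, -, hsum, -⟩ := hq
  have hQ : (10:ℝ) ^ 9 ≤ q := by exact_mod_cast hq9
  have hQ0 : (0:ℝ) < q := by linarith [show (0:ℝ) < 10 ^ 9 by norm_num]
  have hQ1 : (1:ℝ) ≤ q := by linarith [show (1:ℝ) ≤ 10 ^ 9 by norm_num]
  have hx : ∀ i : Fin (nX q), ((i : ℕ) : ℝ) / (q : ℝ) ^ 655 ≤ 1 := by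
    intro i
    rw [div_le_one (pow_pos hQ0 _)]
    have h1 : (i : ℕ) ≤ q ^ 655 := by
      have := i.2
      unfold nX at this
      exact this.le
    exact_mod_cast h1
  refine ⟨?_, ?_, ?_, ?_, ?_⟩
  · intro k hk
    cases k with
    | h0 => norm_num [vpos, vrad]
    | xp i =>
      have h1 := hx i
      have h2 : (0:ℝ) ≤ ((i : ℕ) : ℝ) / (q : ℝ) ^ 655 := by positivity
      refine ⟨rfl, ?_, ?_⟩ <;> simp only [vrad] <;> linarith
    | x0 i =>
      have h1 := hx i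
      have h2 : (0:ℝ) ≤ ((i : ℕ) : ℝ) / (q : ℝ) ^ 655 := by positivity
      refine ⟨rfl, ?_, ?_⟩ <;> simp only [vrad] <;> linarith
    | _ => simp [vty] at hk
  · intro k hk
    cases k with
    | h a b l =>
      obtain ⟨ha1, ha2⟩ := vrng_pos hq9 hlow a.2
      obtain ⟨hb1, hb2⟩ := vrng_pos hq9 hlow b.2
      have h20 : (1:ℝ) ≤ (q:ℝ) ^ 20 := one_le_pow₀ hQ1
      have hl : ((l : ℕ) : ℝ) * qi q 800 ≤ (q:ℝ) ^ 22 := by
        unfold qi
        rw [← div_eq_mul_inv, div_le_iff₀ (pow_pos hQ0 _)]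
        have h1 : ((l : ℕ) : ℝ) ≤ (q:ℝ) ^ 822 := by
          have h2 : (l : ℕ) ≤ q ^ 822 := Nat.lt_succ_iff.1 l.2
          exact_mod_cast h2
        calc ((l : ℕ) : ℝ) ≤ (q:ℝ) ^ 822 := h1
          _ = (q:ℝ) ^ 22 * (q:ℝ) ^ 800 := by rw [← pow_add]
      have hl0 : (0:ℝ) ≤ ((l : ℕ) : ℝ) * qi q 800 := by unfold qi; positivity
      refine ⟨?_, ?_, ?_, ?_⟩ <;> simp only [vpos, vrad] <;> linarith
    | _ => simp [vty] at hk
  · intro k hk
    cases k with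
    | g u i =>
      have h1 : ((i : ℕ) : ℝ) / (10 * (Ng q m u : ℝ)) ≤ 1 / 10 := by
        have h2 : ((i : ℕ) : ℝ) ≤ (Ng q m u : ℝ) := by exact_mod_cast i.2.le
        have h3 : (0:ℝ) < Ng q m u := by
          have : 0 < Ng q m u := Nat.succ_pos _
          exact_mod_cast this
        rw [div_le_div_iff₀ (by positivity) (by norm_num)]
        linarith
      have h2 : (0:ℝ) ≤ ((i : ℕ) : ℝ) / (10 * (Ng q m u : ℝ)) := by positivity
      refine ⟨rfl, ?_, ?_, ?_⟩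
      · simp only [vrad]; linarith
      · simp only [vrad]; linarith
      · exact Nat.lt_succ_iff.1 u.2
    | _ => simp [vty] at hk
  · intro k hk
    cases k with
    | v a i =>
      have h0 : (0:ℝ) < Mv q m a := by exact_mod_cast (lt_of_le_of_lt (Nat.zero_le _) i.2)
      have h1 : 2 * ((i : ℕ) : ℝ) / (Mv q m a : ℝ) ≤ 2 := by
        have h2 : ((i : ℕ) : ℝ) ≤ (Mv q m a : ℝ) := by exact_mod_cast i.2.le
        rw [div_le_iff₀ h0]
        linarith
      have h2 : (0:ℝ) ≤ 2 * ((i : ℕ) : ℝ) / (Mv q m a : ℝ) := by positivity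
      refine ⟨rfl, ?_, ?_, a.2⟩
      · simp only [vrad]; linarith
      · simp only [vrad]; linarith
    | _ => simp [vty] at hk
  · intro a ha b hb l hl
    exact ⟨.h ⟨a, ha⟩ ⟨b, hb⟩ ⟨l, Nat.lt_succ_of_le hl⟩, rfl, rfl, rfl⟩

end Pool.Agent.Helper72.RA
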