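import Pool.Agent.Helper72.RA.Defs2

set_option autoImplicit false

/-! # VSEP2: separation of the cosines in one class -/

namespace Pool.Agent.Helper72.RA

open Real Finset MeasureTheory Filter

open scoped Classical

lemma vsep2_cos {p r : ℝ} (hp : 0 < p) : cos (arctan (r / p)) = p / √(p ^ 2 + r ^ 2) := by
  rw [Real.cos_arctan]
  have h1 : 1 + (r / p) ^ 2 = (p ^ 2 + r ^ 2) / p ^ 2 := by field_simp
  rw [h1, Real.sqrt_div' _ (by positivity), Real.sqrt_sq hp.le, one_div_div]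

lemma vsep2_core {p r r' : ℝ} (hp : 1 ≤ p) (hr : 1 / 2 ≤ r) (hrr : r ≤ r') :
    (r' - r) / (2 * (p ^ 2 + r' ^ 2) ^ 2) ≤ cos (arctan (r / p)) - cos (arctan (r' / p)) := by
  have hp0 : 0 < p := by linarith
  rw [vsep2_cos hp0, vsep2_cos hp0]
  set A := √(p ^ 2 + r ^ 2) with hA
  set C := √(p ^ 2 + r' ^ 2) with hC
  have hA2 : A ^ 2 = p ^ 2 + r ^ 2 := Real.sq_sqrt (by positivity)
  have hC2 : C ^ 2 = p ^ 2 + r' ^ 2 := Real.sq_sqrt (by positivity)
  have hA1 : 1 ≤ A := by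
    rw [hA]; apply Real.one_le_sqrt.2; nlinarith
  have hAC : A ≤ C := Real.sqrt_le_sqrt (by nlinarith)
  have hA0 : 0 < A := by linarith
  have hC0 : 0 < C := by linarith
  have hC1 : 1 ≤ C := by linarith
  have h1 : p / A - p / C = p * (C - A) / (A * C) := by field_simp
  rw [h1, ← hC2, div_le_div_iff₀ (by positivity) (by positivity)]
  have h2 : (C - A) * (C + A) = (r' - r) * (r' + r) := by nlinarith
  have h3 : (r' - r) ≤ (C - A) * (C + A) := by
    rw [h2]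
    nlinarith
  have h4 : (C - A) * (C + A) ≤ (C - A) * (2 * C) := by
    apply mul_le_mul_of_nonneg_left <;> linarith
  have h5 : r' - r ≤ (C - A) * (2 * C) := h3.trans h4
  have hCA : 0 ≤ C - A := by linarith
  have h6 : A * C ≤ C ^ 2 := by nlinarith
  calc (r' - r) * (A * C) ≤ ((C - A) * (2 * C)) * C ^ 2 := by
        apply mul_le_mul h5 h6 (by positivity) (by positivity)
    _ = 1 * (C - A) * (2 * C ^ 3) := by ring
    _ ≤ p * (C - A) * (2 * C ^ 3 * C) := by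
        apply mul_le_mul
        · exact mul_le_mul_of_nonneg_right hp hCA
        · nlinarith [pow_pos hC0 3]
        · positivity
        · positivity
    _ = p * (C - A) * (2 * (C ^ 2) ^ 2) := by ring

lemma vsep2_abs {p r r' R δ : ℝ} (hp : 1 ≤ p) (hr : 1 / 2 ≤ r) (hr' : 1 / 2 ≤ r') (hR : r ≤ R)
    (hR' : r' ≤ R) (hδ : δ ≤ |r - r'|) :
    δ / (2 * (p ^ 2 + R ^ 2) ^ 2) ≤ |cos (arctan (r / p)) - cos (arctan (r' / p))| := by
  rcases le_total r r' with h | h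
  · have h1 := vsep2_core hp hr h
    rw [abs_of_nonpos (by linarith)] at hδ
    refine le_trans ?_ (h1.trans (le_abs_self _))
    have h0 : 0 ≤ r' - r := by linarith
    calc δ / (2 * (p ^ 2 + R ^ 2) ^ 2) ≤ (r' - r) / (2 * (p ^ 2 + R ^ 2) ^ 2) := by
          gcongr; linarith
      _ ≤ (r' - r) / (2 * (p ^ 2 + r' ^ 2) ^ 2) := by gcongr
  · have h1 := vsep2_core hp hr' h
    rw [abs_of_nonneg (by linarith)] at hδ
    rw [abs_sub_comm]
    refine le_trans ?_ (h1.trans (le_abs_self _))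
    have h0 : 0 ≤ r - r' := by linarith
    calc δ / (2 * (p ^ 2 + R ^ 2) ^ 2) ≤ (r - r') / (2 * (p ^ 2 + R ^ 2) ^ 2) := by
          gcongr
      _ ≤ (r - r') / (2 * (p ^ 2 + r ^ 2) ^ 2) := by gcongr

lemma vsep2_int {i j : ℕ} (h : i ≠ j) : (1:ℝ) ≤ |(i:ℝ) - (j:ℝ)| := by
  have h1 : (1:ℤ) ≤ |(i:ℤ) - (j:ℤ)| := Int.one_le_abs (by omega)
  have h2 : ((1:ℤ):ℝ) ≤ ((|(i:ℤ) - (j:ℤ)| : ℤ) : ℝ) := by exact_mod_cast h1
  push_cast at h2
  exact h2

/-- the estimate for the kinds `xp` and `x0` -/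
lemma vsep2_x {q : ℕ} (hq : 10 ^ 9 ≤ q) {i j : ℕ} (hi : i < q ^ 655) (hj : j < q ^ 655)
    (hij : i ≠ j) :
    qi q 930 ≤ |cos (arctan ((55 / 100 + (i : ℝ) / (q : ℝ) ^ 655) / 1)) -
      cos (arctan ((55 / 100 + (j : ℝ) / (q : ℝ) ^ 655) / 1))| := by
  have hQ : (10:ℝ) ^ 9 ≤ q := by exact_mod_cast hq
  have h10 : (10:ℝ) ^ 9 = 1000000000 := by norm_num
  have hQ1 : (1:ℝ) ≤ q := by linarith
  have hQ0 : (0:ℝ) < q := by linarith
  have hb : ∀ i : ℕ, i < q ^ 655 → 0 ≤ (i : ℝ) / (q : ℝ) ^ 655 ∧ (i : ℝ) / (q : ℝ) ^ 655 ≤ 1 := by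
    intro i hi
    refine ⟨by positivity, ?_⟩
    rw [div_le_one (pow_pos hQ0 _)]
    exact_mod_cast hi.le
  obtain ⟨hi0, hi1⟩ := hb i hi
  obtain ⟨hj0, hj1⟩ := hb j hj
  refine le_trans ?_ (vsep2_abs (p := 1) (R := 155 / 100) (δ := qi q 655) le_rfl
    (by linarith) (by linarith) (by linarith) (by linarith) ?_)
  · have h1 : qi q 930 ≤ qi q 655 * qi q 1 := by
      unfold qi
      rw [← mul_inv, ← pow_add]
      exact inv_anti₀ (pow_pos hQ0 _) (pow_le_pow_right₀ hQ1 (by norm_num))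
    have h2 : qi q 1 ≤ 1 / (2 * ((1:ℝ) ^ 2 + (155 / 100) ^ 2) ^ 2) := by
      unfold qi
      rw [pow_one, ← one_div]
      refine one_div_le_one_div_of_le (by norm_num) ?_
      have : (2 * ((1:ℝ) ^ 2 + (155 / 100) ^ 2) ^ 2) ≤ 1000000000 := by norm_num
      linarith
    have h3 : 0 ≤ qi q 655 := by unfold qi; positivity
    calc qi q 930 ≤ qi q 655 * qi q 1 := h1
      _ ≤ qi q 655 * (1 / (2 * ((1:ℝ) ^ 2 + (155 / 100) ^ 2) ^ 2)) := by gcongr
      _ = _ := by rw [mul_one_div]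
  · have h1 : (55 / 100 + (i : ℝ) / (q : ℝ) ^ 655) - (55 / 100 + (j : ℝ) / (q : ℝ) ^ 655) =
        ((i:ℝ) - j) * qi q 655 := by
      unfold qi
      ring
    rw [h1, abs_mul]
    have h2 := vsep2_int hij
    have h3 : 0 ≤ qi q 655 := by unfold qi; positivity
    rw [abs_of_nonneg h3]
    nlinarith

/-- the estimate for the hubs -/
lemma vsep2_h {q : ℕ} (hq : 10 ^ 9 ≤ q) {i j : ℕ} (hi : i ≤ q ^ 822) (hj : j ≤ q ^ 822)
    (hij : i ≠ j) {p : ℝ} (hp : 1 ≤ p) (hp' : p ≤ 7 * (q:ℝ) ^ 20) :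
    qi q 930 ≤ |cos (arctan ((1 / 2 + (i : ℝ) * qi q 800) / p)) -
      cos (arctan ((1 / 2 + (j : ℝ) * qi q 800) / p))| := by
  have hQ : (10:ℝ) ^ 9 ≤ q := by exact_mod_cast hq
  have h10 : (10:ℝ) ^ 9 = 1000000000 := by norm_num
  have hQ1 : (1:ℝ) ≤ q := by linarith
  have hQ0 : (0:ℝ) < q := by linarith
  have hb : ∀ i : ℕ, i ≤ q ^ 822 → 0 ≤ (i : ℝ) * qi q 800 ∧ (i : ℝ) * qi q 800 ≤ (q:ℝ) ^ 22 := by
    intro i hi
    unfold qi
    refine ⟨by positivity, ?_⟩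
    rw [← div_eq_mul_inv, div_le_iff₀ (pow_pos hQ0 _), ← pow_add]
    exact_mod_cast hi
  obtain ⟨hi0, hi1⟩ := hb i hi
  obtain ⟨hj0, hj1⟩ := hb j hj
  have h22 : (1:ℝ) ≤ (q:ℝ) ^ 22 := one_le_pow₀ hQ1
  refine le_trans ?_ (vsep2_abs (p := p) (R := 2 * (q:ℝ) ^ 22) (δ := qi q 800) hp
    (by linarith) (by linarith) (by linarith) (by linarith) ?_)
  · have h1 : (2 * (p ^ 2 + (2 * (q:ℝ) ^ 22) ^ 2) ^ 2) ≤ (q:ℝ) ^ 130 := by
      have h2 : p ^ 2 ≤ 49 * (q:ℝ) ^ 40 := by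
        calc p ^ 2 ≤ (7 * (q:ℝ) ^ 20) ^ 2 := by gcongr
          _ = 49 * (q:ℝ) ^ 40 := by ring
      have h3 : (q:ℝ) ^ 40 ≤ (q:ℝ) ^ 44 := pow_le_pow_right₀ hQ1 (by norm_num)
      have h4 : p ^ 2 + (2 * (q:ℝ) ^ 22) ^ 2 ≤ 53 * (q:ℝ) ^ 44 := by
        have : (2 * (q:ℝ) ^ 22) ^ 2 = 4 * (q:ℝ) ^ 44 := by ring
        rw [this]; linarith
      calc 2 * (p ^ 2 + (2 * (q:ℝ) ^ 22) ^ 2) ^ 2 ≤ 2 * (53 * (q:ℝ) ^ 44) ^ 2 := by gcongr
        _ = 5618 * (q:ℝ) ^ 88 := by ring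
        _ ≤ q * (q:ℝ) ^ 88 := by gcongr; linarith
        _ = (q:ℝ) ^ 89 := by ring
        _ ≤ (q:ℝ) ^ 130 := pow_le_pow_right₀ hQ1 (by norm_num)
    have h3 : 0 ≤ qi q 800 := by unfold qi; positivity
    calc qi q 930 = qi q 800 / (q:ℝ) ^ 130 := by
          unfold qi
          rw [div_eq_mul_inv, ← mul_inv, ← pow_add]
      _ ≤ _ := by gcongr
  · have h1 : (1 / 2 + (i : ℝ) * qi q 800) - (1 / 2 + (j : ℝ) * qi q 800) =
        ((i:ℝ) - j) * qi q 800 := by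
      ring
    rw [h1, abs_mul]
    have h2 := vsep2_int hij
    have h3 : 0 ≤ qi q 800 := by unfold qi; positivity
    rw [abs_of_nonneg h3]
    nlinarith

lemma vsep2_posC {q a : ℕ} (hq : 10 ^ 9 ≤ q) (h1 : ∀ u < u0 q, (Pl q u : ℝ) ≤ 3 * (q : ℝ) ^ 20)
    (ha : a < nF q) : 1 ≤ posC q a ∧ posC q a ≤ 7 * (q:ℝ) ^ 20 := by
  have hQ1 : (1:ℝ) ≤ q := by
    have : 1 ≤ q := by omega
    exact_mod_cast this
  have h20 : (1:ℝ) ≤ (q:ℝ) ^ 20 := one_le_pow₀ hQ1
  unfold posC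
  split_ifs with h
  · have h2 : (a:ℝ) ≤ 3 := by
      have : a ≤ 3 := by omega
      exact_mod_cast this
    have h3 : (q:ℝ) ^ 10 ≤ (q:ℝ) ^ 20 := pow_le_pow_right₀ hQ1 (by norm_num)
    constructor
    · have : (0:ℝ) ≤ (a:ℝ) * (q:ℝ) ^ 10 := by positivity
      linarith
    · have : (a:ℝ) * (q:ℝ) ^ 10 ≤ 3 * (q:ℝ) ^ 20 := by gcongr
      linarith
  · have h4 : a - 3 < u0 q := by unfold nF at ha; omega
    have := h1 _ h4
    constructor
    · have : (0:ℝ) ≤ (Pl q (a - 3) : ℝ) := by positivity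
      linarith
    · linarith

theorem st_VSEP2 (hLEV : ST_LEV) : ST_VSEP2 := by
  filter_upwards [hLEV] with q hq m hm hm' k k' hne hcls hk hk'
  obtain ⟨hq9, hlow, -, -, hU, hn, hmono, hPl, -, -, -, -, hsum, -⟩ := hq
  cases k with
  | s => simp [vty] at hk
  | g => simp [vty] at hk
  | v => simp [vty] at hk
  | h0 =>
    cases k' with
    | h0 => exact absurd rfl hne
    | s => simp [vty] at hk'
    | g => simp [vty] at hk'
    | v => simp [vty] at hk'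
    | _ => simp only [vcls] at hcls; omega
  | xp i =>
    cases k' with
    | xp j =>
      have hij : (i : ℕ) ≠ j := fun h => hne (by rw [Fin.ext h])
      exact vsep2_x hq9 i.2 j.2 hij
    | s => simp [vty] at hk'
    | g => simp [vty] at hk'
    | v => simp [vty] at hk'
    | _ => simp only [vcls] at hcls; omega
  | x0 i =>
    cases k' with
    | x0 j =>
      have hij : (i : ℕ) ≠ j := fun h => hne (by rw [Fin.ext h])
      exact vsep2_x hq9 i.2 j.2 hij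
    | s => simp [vty] at hk'
    | g => simp [vty] at hk'
    | v => simp [vty] at hk'
    | _ => simp only [vcls] at hcls; omega
  | h a b l =>
    cases k' with
    | h a' b' l' =>
      have h1 : (a : ℕ) * nF q + b = a' * nF q + b' := by
        simp only [vcls] at hcls; omega
      have hb : (b : ℕ) = b' := by
        have h2 := congrArg (fun x => x % nF q) h1
        simp only [Nat.mul_add_mod_self_right] at h2
        rwa [Nat.mod_eq_of_lt b.2, Nat.mod_eq_of_lt b'.2] at h2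
      have ha : (a : ℕ) = a' := by
        rw [hb] at h1
        have h2 : (a : ℕ) * nF q = a' * nF q := by omega
        have h3 : 0 < nF q := lt_of_le_of_lt (Nat.zero_le _) a.2
        exact Nat.eq_of_mul_eq_mul_right h3 h2
      have ha' : a = a' := Fin.ext ha
      have hb' : b = b' := Fin.ext hb
      subst ha' hb'
      have hll : (l : ℕ) ≠ l' := fun h => hne (by rw [Fin.ext h])
      obtain ⟨pa1, pa2⟩ := vsep2_posC hq9 hlow a.2
      obtain ⟨pb1, pb2⟩ := vsep2_posC hq9 hlow b.2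
      exact vsep2_h hq9 (Nat.lt_succ_iff.1 l.2) (Nat.lt_succ_iff.1 l'.2) hll
        (p := (posC q a + posC q b) / 2) (by linarith) (by linarith)
    | s => simp [vty] at hk'
    | g => simp [vty] at hk'
    | v => simp [vty] at hk'
    | _ => simp only [vcls] at hcls; omega

end Pool.Agent.Helper72.RA
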