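import Pool.Agent.Helper72.RA.Defs2

set_option autoImplicit false

/-! # VWIN: windows -/

namespace Pool.Agent.Helper72.RA

open Real Finset MeasureTheory Filter

open scoped Classical

lemma vwin_cls {q m : ℕ} (hq : 10 ^ 9 ≤ q) (hU : UU q + 8 ≤ q) (hn : nF q ≤ q) (k : Vx q m) :
    vcls k < q ^ 3 := by
  have h1 : nF q * nF q ≤ q * q := Nat.mul_le_mul hn hn
  have h2 : 3 * (q * q) ≤ q ^ 3 := by
    calc 3 * (q * q) ≤ q * (q * q) := Nat.mul_le_mul_right _ (by omega)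
      _ = q ^ 3 := by ring
  have h3 : q ≤ q * q := Nat.le_mul_self q
  cases k with
  | h a b l =>
    have h4 : (a : ℕ) * nF q + b < nF q * nF q := by
      have ha := a.2
      have hb := b.2
      calc (a : ℕ) * nF q + b < (a : ℕ) * nF q + nF q := by omega
        _ = ((a : ℕ) + 1) * nF q := by ring
        _ ≤ nF q * nF q := Nat.mul_le_mul_right _ ha
    simp only [vcls]
    omega
  | g u i =>
    have := u.2
    simp only [vcls]
    omega
  | v a i =>
    have := a.2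
    simp only [vcls]
    omega
  | _ => simp only [vcls]; omega

lemma vwin_nonneg {q m : ℕ} (k : Vx q m) : 0 ≤ vrad k / vpos k := by
  have hpos : ∀ a, 0 ≤ posC q a := by
    intro a
    unfold posC
    split_ifs <;> positivity
  cases k with
  | h a b l =>
    have h1 := hpos a
    have h2 := hpos b
    simp only [vrad, vpos, qi]
    positivity
  | _ => simp only [vrad, vpos]; positivity

/-- combination of the residue and of the quotient -/
lemma vwin_sep {L f f' c c' : ℕ} (hc : 2 * c + 2 ≤ L) (hc' : 2 * c' + 2 ≤ L)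
    (h : c ≠ c' ∨ f ≠ f') :
    L * f + 2 * c + 2 ≤ L * f' + 2 * c' ∨ L * f' + 2 * c' + 2 ≤ L * f + 2 * c := by
  rcases lt_trichotomy f f' with h1 | h1 | h1
  · left
    have : L * f + L ≤ L * f' := by
      calc L * f + L = L * (f + 1) := by ring
        _ ≤ L * f' := Nat.mul_le_mul_left _ h1
    omega
  · subst h1
    have hcc : c ≠ c' := by
      rcases h with h | h
      · exact h
      · exact absurd rfl h
    omega
  · right
    have : L * f' + L ≤ L * f := by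
      calc L * f' + L = L * (f' + 1) := by ring
        _ ≤ L * f := Nat.mul_le_mul_left _ h1
    omega

theorem st_VWIN (hLEV : ST_LEV) (hSEP : ST_VSEP1) : ST_VWIN := by
  filter_upwards [hLEV, hSEP] with q hq hs m hm hm'
  obtain ⟨hq9, hlow, -, -, hU, hn, hmono, hPl, -, -, -, -, hsum, -⟩ := hq
  have hsep := hs m hm hm'
  have hQ : (10:ℝ) ^ 9 ≤ q := by exact_mod_cast hq9
  have h10 : (10:ℝ) ^ 9 = 1000000000 := by norm_num
  have hQ1 : (1:ℝ) ≤ q := by linarith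
  have hQ0 : (0:ℝ) < q := by linarith
  have hcls := fun k : Vx q m => vwin_cls hq9 hU hn k
  have hL0 : (0:ℝ) < 2 * (q:ℝ) ^ 3 := by positivity
  have h1401 : (0:ℝ) < (q:ℝ) ^ 1401 := pow_pos hQ0 _
  have hx0 : ∀ k : Vx q m, 0 ≤ arctan (vrad k / vpos k) * (q : ℝ) ^ 1401 := fun k =>
    mul_nonneg (Real.arctan_nonneg.2 (vwin_nonneg k)) h1401.le
  refine ⟨hcls, ?_, ?_⟩
  · intro k
    set x : ℝ := arctan (vrad k / vpos k) * (q : ℝ) ^ 1401 with hx
    have h1 : (⌊x / (2 * (q:ℝ) ^ 3)⌋₊ : ℝ) ≤ x / (2 * (q:ℝ) ^ 3) :=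
      Nat.floor_le (div_nonneg (hx0 k) hL0.le)
    have h2 : x / (2 * (q:ℝ) ^ 3) < (⌊x / (2 * (q:ℝ) ^ 3)⌋₊ : ℝ) + 1 := Nat.lt_floor_add_one _
    rw [le_div_iff₀ hL0] at h1
    rw [div_lt_iff₀ hL0] at h2
    have h3 : (vcls k : ℝ) ≤ (q:ℝ) ^ 3 := by exact_mod_cast (hcls k).le
    have h4 : (vwin k : ℝ) = 2 * (q:ℝ) ^ 3 * (⌊x / (2 * (q:ℝ) ^ 3)⌋₊ : ℝ) + 2 * (vcls k : ℝ) := by
      unfold vwin
      push_cast
      rfl
    have h0 : (0:ℝ) ≤ (vcls k : ℝ) := by positivity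
    have h5 : |(vwin k : ℝ) - x| ≤ 2 * (q:ℝ) ^ 3 := by
      rw [h4, abs_le]
      constructor <;> nlinarith
    have h6 : (vwin k : ℝ) * qi q 1401 - arctan (vrad k / vpos k) =
        ((vwin k : ℝ) - x) * qi q 1401 := by
      have : arctan (vrad k / vpos k) = x * qi q 1401 := by
        rw [hx]
        unfold qi
        rw [mul_assoc, mul_inv_cancel₀ h1401.ne', mul_one]
      rw [this]
      ring
    have hqi : 0 ≤ qi q 1401 := by unfold qi; positivity
    rw [h6, abs_mul, abs_of_nonneg hqi]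
    calc |(vwin k : ℝ) - x| * qi q 1401 ≤ (2 * (q:ℝ) ^ 3) * qi q 1401 := by gcongr
      _ ≤ ((q:ℝ) ^ 6) * qi q 1401 := by
        gcongr
        calc 2 * (q:ℝ) ^ 3 ≤ q * (q:ℝ) ^ 3 := by gcongr; linarith
          _ = (q:ℝ) ^ 4 := by ring
          _ ≤ (q:ℝ) ^ 6 := pow_le_pow_right₀ hQ1 (by norm_num)
      _ = qi q 1395 := by
        unfold qi
        rw [show 1401 = 6 + 1395 by norm_num, pow_add, mul_inv, ← mul_assoc,
          mul_inv_cancel₀ (pow_pos hQ0 6).ne', one_mul]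
  · intro k k' hne hk hk'
    set x : ℝ := arctan (vrad k / vpos k) * (q : ℝ) ^ 1401 with hx
    set x' : ℝ := arctan (vrad k' / vpos k') * (q : ℝ) ^ 1401 with hx'
    have hw : vwin k = 2 * q ^ 3 * ⌊x / (2 * (q:ℝ) ^ 3)⌋₊ + 2 * vcls k := rfl
    have hw' : vwin k' = 2 * q ^ 3 * ⌊x' / (2 * (q:ℝ) ^ 3)⌋₊ + 2 * vcls k' := rfl
    rw [hw, hw']
    have c1 := hcls k
    have c2 := hcls k'
    refine vwin_sep (by omega) (by omega) ?_
    by_cases hcc : vcls k = vcls k'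
    · right
      intro hf
      have h1 := hsep k k' hne hk hk' hcc
      have h2 : |x / (2 * (q:ℝ) ^ 3) - x' / (2 * (q:ℝ) ^ 3)| < 1 := by
        have a1 := Nat.floor_le (div_nonneg (hx0 k) hL0.le)
        have a2 := Nat.lt_floor_add_one (x / (2 * (q:ℝ) ^ 3))
        have b1 := Nat.floor_le (div_nonneg (hx0 k') hL0.le)
        have b2 := Nat.lt_floor_add_one (x' / (2 * (q:ℝ) ^ 3))
        rw [← hx] at a1
        rw [← hx'] at b1
        rw [hf] at a1 a2
        rw [abs_lt]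
        constructor <;> linarith
      have h3 : x / (2 * (q:ℝ) ^ 3) - x' / (2 * (q:ℝ) ^ 3) =
          (arctan (vrad k / vpos k) - arctan (vrad k' / vpos k')) *
            ((q : ℝ) ^ 1401 / (2 * (q:ℝ) ^ 3)) := by
        rw [hx, hx']; ring
      rw [h3, abs_mul, abs_of_pos (div_pos h1401 hL0)] at h2
      have hmpos : (0:ℝ) < m := by
        have : 0 < m := lt_of_lt_of_le (Nat.pow_pos (by omega)) hm
        exact_mod_cast this
      have h4 : (1:ℝ) ≤ ((m : ℝ) * (q : ℝ) ^ 11)⁻¹ * ((q : ℝ) ^ 1401 / (2 * (q:ℝ) ^ 3)) := by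
        rw [← div_eq_inv_mul, div_div, le_div_iff₀ (by positivity), one_mul]
        have h5 : (m:ℝ) ≤ 2 * (q:ℝ) ^ 1000 := by exact_mod_cast hm'
        calc 2 * (q:ℝ) ^ 3 * ((m:ℝ) * (q:ℝ) ^ 11) ≤ 2 * (q:ℝ) ^ 3 * (2 * (q:ℝ) ^ 1000 * (q:ℝ) ^ 11) := by
              gcongr
          _ = 4 * (q:ℝ) ^ 1014 := by ring
          _ ≤ q * (q:ℝ) ^ 1014 := by gcongr; linarith
          _ = (q:ℝ) ^ 1015 := by ring
          _ ≤ (q:ℝ) ^ 1401 := pow_le_pow_right₀ hQ1 (by norm_num)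
      have h5 : (0:ℝ) < (q : ℝ) ^ 1401 / (2 * (q:ℝ) ^ 3) := div_pos h1401 hL0
      have h6 := mul_le_mul_of_nonneg_right h1 h5.le
      linarith
    · exact Or.inl hcc

end Pool.Agent.Helper72.RA
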